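import Pool.Agent.LibT63.E6

/-!
Consecutive primes from the theorem on prescribed places: chains of long gaps and isolated clusters.
-/

set_option autoImplicit false

namespace Pool.Agent.LibRC95

open Finset Pool.Agent.LibT63 Filter

theorem RX_bds : ∀ᶠ X : ℝ in atTop, Real.log X ≤ RX X ∧ RX X ≤ (Real.log X) ^ 3 := by
  have hL1 := Real.tendsto_log_atTop
  have hL2 := hL1.comp hL1
  have hL3 := hL1.comp hL2
  have hL4 := hL1.comp hL3
  filter_upwards [hL1.eventually_ge_atTop 1, hL2.eventually_ge_atTop 1, hL3.eventually_ge_atTop 1,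
    hL4.eventually_ge_atTop 1] with X h1 h2 h3 h4
  simp only [Function.comp_apply] at h2 h3 h4
  set L := Real.log X with hL
  set l2 := Real.log L with hl2
  set l3 := Real.log l2 with hl3
  set l4 := Real.log l3 with hl4
  have hRX : RX X = L * l2 ^ 2 * l4 / l3 ^ 2 := rfl
  have a1 : l2 ≤ L := by
    have := Real.log_le_sub_one_of_pos (show 0 < L by linarith)
    linarith
  have a2 : l3 ≤ l2 := by
    have := Real.log_le_sub_one_of_pos (show 0 < l2 by linarith)
    linarith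
  have a3 : l4 ≤ l3 := by
    have := Real.log_le_sub_one_of_pos (show 0 < l3 by linarith)
    linarith
  have hp3 : 0 < l3 ^ 2 := by positivity
  constructor
  · rw [hRX, le_div_iff₀ hp3]
    have e2 : l3 ^ 2 ≤ l2 ^ 2 := pow_le_pow_left₀ (by linarith) a2 2
    have e3 : L * l2 ^ 2 * 1 ≤ L * l2 ^ 2 * l4 :=
      mul_le_mul_of_nonneg_left h4 (by positivity)
    calc L * l3 ^ 2 ≤ L * l2 ^ 2 := mul_le_mul_of_nonneg_left e2 (by linarith)
      _ = L * l2 ^ 2 * 1 := (mul_one _).symm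
      _ ≤ _ := e3
  · rw [hRX, div_le_iff₀ hp3]
    have e1 : l2 ^ 2 ≤ L ^ 2 := pow_le_pow_left₀ (by linarith) a1 2
    have e2 : l4 ≤ l3 ^ 2 := by nlinarith
    calc L * l2 ^ 2 * l4 ≤ L * l2 ^ 2 * l3 ^ 2 := mul_le_mul_of_nonneg_left e2 (by positivity)
      _ ≤ L * L ^ 2 * l3 ^ 2 := by
        apply mul_le_mul_of_nonneg_right _ hp3.le
        exact mul_le_mul_of_nonneg_left e1 (by linarith)
      _ = L ^ 3 * l3 ^ 2 := by ring

theorem RX_le_X {c : ℝ} (hc : 0 < c) : ∀ᶠ X : ℝ in atTop, c * RX X ≤ X := by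
  have h1 : (fun x : ℝ => Real.log x ^ 3) =o[atTop] (fun x : ℝ => x) := by
    exact Real.isLittleO_pow_log_id_atTop
  have h2 := h1.def (show (0 : ℝ) < 1 / c by positivity)
  filter_upwards [RX_bds, h2, eventually_ge_atTop 1] with X h3 h4 h5
  rw [Real.norm_eq_abs, Real.norm_eq_abs, abs_of_nonneg (show (0 : ℝ) ≤ X by linarith)] at h4
  have h6 := (le_abs_self _).trans h4
  calc c * RX X ≤ c * (Real.log X) ^ 3 := mul_le_mul_of_nonneg_left h3.2 hc.le
    _ ≤ c * (1 / c * X) := mul_le_mul_of_nonneg_left h6 hc.le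
    _ = X := by field_simp

theorem RX_ge_const (B : ℝ) : ∀ᶠ X : ℝ in atTop, B ≤ RX X := by
  filter_upwards [RX_bds, Real.tendsto_log_atTop.eventually_ge_atTop B] with X h1 h2
  exact h2.trans h1.1

/-- The theorem on prescribed places for given `m`, `K`, `c`; one `n` only. -/
def Pl (m K : ℕ) (c : ℝ) : Prop :=
  ∀ q : ℕ, 1 ≤ q → ∃ X₀ : ℝ, ∀ X : ℝ, X₀ ≤ X → ∀ (a : ℕ) (H : Finset ℕ), H.card = K →
    (∀ h ∈ H, (h : ℝ) ≤ c * RX X) → (∀ h ∈ H, (a + h).Coprime q) →
    (∀ p : ℕ, p.Prime → ¬ p ∣ q → ∃ r : ℕ, ∀ h ∈ H, ¬ h ≡ r [MOD p]) →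
    ∃ n : ℕ, X ^ (1 / 2 : ℝ) ≤ n ∧ (n : ℝ) ≤ X ∧ n ≡ a [MOD q] ∧
      m ≤ (H.filter fun h => (n + h).Prime).card ∧
      ∀ j : ℕ, (j : ℝ) ≤ c * RX X → j ∉ H → ¬ (n + j).Prime

theorem exists_pl (m : ℕ) (hm : 1 ≤ m) : ∃ K : ℕ, 1 ≤ K ∧ ∃ c : ℝ, 0 < c ∧ Pl m K c := by
  classical
  obtain ⟨C, hC⟩ := E5_final 1000 le_rfl E6_good
  refine ⟨⌈Real.exp (C * m)⌉₊, ?_, ?_⟩
  · exact Nat.one_le_iff_ne_zero.2 (Nat.ceil_pos.2 (Real.exp_pos _)).ne'
  obtain ⟨c, hc, h⟩ := hC m _ hm (Nat.le_ceil _)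
  refine ⟨c, hc, fun q hq => ?_⟩
  obtain ⟨X₀, h0⟩ := h q hq (1 / 2) (by norm_num)
  refine ⟨max X₀ 1, fun X hX a H hH hle hcop hadm => ?_⟩
  have hX0 : X₀ ≤ X := (le_max_left _ _).trans hX
  have hX1 : 1 ≤ X := (le_max_right _ _).trans hX
  have e : c * Real.log X * (Real.log (Real.log X)) ^ 2 *
      Real.log (Real.log (Real.log (Real.log X))) / (Real.log (Real.log (Real.log X))) ^ 2 =
      c * RX X := by
    unfold RX; ring
  have h1 := h0 X hX0 a H hH (fun h hh => by rw [e]; exact hle h hh) hcop hadm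
  have h2 : (0 : ℝ) < X ^ (19 / 20 : ℝ) := Real.rpow_pos_of_pos (by linarith) _
  have h3 := lt_of_lt_of_le h2 h1
  rw [Nat.cast_pos, Finset.card_pos] at h3
  obtain ⟨n, hn⟩ := h3
  rw [Finset.mem_filter, Finset.mem_Icc] at hn
  obtain ⟨⟨h4, h5⟩, h6, h7, h8, h9⟩ := hn
  refine ⟨n, ?_, (Nat.le_floor_iff (by linarith)).1 h5, h7, h8, fun j hj hjH => h9 j (by rw [e]; exact hj) hjH⟩
  have : (1 - 1 / 2 : ℝ) = 1 / 2 := by norm_num
  rw [this] at h6
  exact h6

open scoped Nat in
/-- prescribed places in arithmetic progression -/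
theorem ap {m K : ℕ} {c : ℝ} (hP : Pl m K c) (q : ℕ) (hq : 1 ≤ q) :
    ∃ X₀ : ℝ, ∀ X : ℝ, X₀ ≤ X → ∀ a T D : ℕ, a.Coprime q → q ∣ T → q * K ! ∣ D → 0 < D →
      ((T + K * D : ℕ) : ℝ) ≤ c * RX X →
      ∃ n : ℕ, X ^ (1 / 2 : ℝ) ≤ n ∧ (n : ℝ) ≤ X ∧ n ≡ a [MOD q] ∧
        m ≤ ((range K).filter fun i => (n + (T + i * D)).Prime).card ∧
        ∀ j : ℕ, (j : ℝ) ≤ c * RX X → (∀ i < K, j ≠ T + i * D) → ¬ (n + j).Prime := by
  obtain ⟨X₀, h0⟩ := hP q hq
  refine ⟨X₀, fun X hX a T D ha hT hD hD0 hle => ?_⟩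
  have hinj : Function.Injective (fun i : ℕ => T + i * D) := by
    intro i j hij
    have h1 : T + i * D = T + j * D := hij
    have h2 : i * D = j * D := Nat.add_left_cancel h1
    exact Nat.eq_of_mul_eq_mul_right hD0 h2
  have hqD : q ∣ D := (dvd_mul_right _ _).trans hD
  obtain ⟨n, h1, h2, h3, h4, h5⟩ := h0 X hX a ((range K).image fun i => T + i * D)
    (by rw [card_image_of_injective _ hinj, card_range])
    (by
      intro h hh
      obtain ⟨i, hi, rfl⟩ := Finset.mem_image.1 hh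
      refine le_trans ?_ hle
      have : T + i * D ≤ T + K * D :=
        Nat.add_le_add_left (Nat.mul_le_mul_right _ (Finset.mem_range.1 hi).le) _
      exact_mod_cast this)
    (by
      intro h hh
      obtain ⟨i, hi, rfl⟩ := Finset.mem_image.1 hh
      obtain ⟨t, ht⟩ : q ∣ T + i * D := dvd_add hT (hqD.mul_left _)
      rw [ht]
      have : (a + q * t).Coprime q ↔ a.Coprime q := by simp
      rw [this]; exact ha)
    (by
      intro p hp hpq
      by_cases hpK : p ≤ K
      · have hpD : p ∣ D := ((hp.dvd_factorial.2 hpK).mul_left q).trans hD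
        refine ⟨T + 1, fun h hh => ?_⟩
        obtain ⟨i, hi, rfl⟩ := Finset.mem_image.1 hh
        intro hmod
        have h6 : i * D ≡ 1 [MOD p] := Nat.ModEq.add_left_cancel' T hmod
        have h7 : p ∣ 1 := (h6.dvd_iff (dvd_refl p)).1 (hpD.mul_left i)
        exact hp.one_lt.ne' (Nat.dvd_one.1 h7)
      · by_contra hcon
        push Not at hcon
        have h6 : (range p).card ≤ ((range K).image fun i => (T + i * D) % p).card := by
          apply Finset.card_le_card
          intro r hr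
          obtain ⟨h, hh, hmod⟩ := hcon r
          obtain ⟨i, hi, rfl⟩ := Finset.mem_image.1 hh
          refine Finset.mem_image.2 ⟨i, hi, ?_⟩
          have h7 : (T + i * D) % p = r % p := hmod
          rw [h7, Nat.mod_eq_of_lt (Finset.mem_range.1 hr)]
        have h8 := h6.trans Finset.card_image_le
        rw [card_range, card_range] at h8
        exact hpK h8)
  refine ⟨n, h1, h2, h3, ?_, ?_⟩
  · refine h4.trans ?_
    rw [Finset.filter_image]
    exact Finset.card_image_le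
  · intro j hj hji
    apply h5 j hj
    intro hjm
    obtain ⟨i, hi, rfl⟩ := Finset.mem_image.1 hjm
    exact hji i (Finset.mem_range.1 hi) rfl

/-- the primes of a window all of whose primes are in an arithmetic progression -/
theorem primes_window {n T D K L : ℕ} (hD : 0 < D) (hL : T + K * D ≤ L)
    (h : ∀ j ≤ L, (∀ i < K, j ≠ T + i * D) → ¬ (n + j).Prime) (s : ℕ)
    (hs : s = ((range K).filter fun i => (n + (T + i * D)).Prime).card) :
    (∀ j < s, ∃ e < K, Nat.nth Nat.Prime (Nat.count Nat.Prime n + j) = n + (T + e * D)) ∧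
      n + L < Nat.nth Nat.Prime (Nat.count Nat.Prime n + s) := by
  classical
  have hcount : Nat.count Nat.Prime (n + (L + 1)) = Nat.count Nat.Prime n + s := by
    rw [Nat.count_add, hs]
    congr 1
    rw [Nat.count_eq_card_filter_range]
    symm
    apply Finset.card_bij (fun i _ => T + i * D)
    · intro i hi
      rw [Finset.mem_filter, Finset.mem_range] at hi ⊢
      refine ⟨?_, hi.2⟩
      have : T + i * D ≤ T + K * D := Nat.add_le_add_left (Nat.mul_le_mul_right _ hi.1.le) _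
      omega
    · intro i _ j _ hij
      have h2 : i * D = j * D := Nat.add_left_cancel hij
      exact Nat.eq_of_mul_eq_mul_right hD h2
    · intro j hj
      rw [Finset.mem_filter, Finset.mem_range] at hj
      by_contra hcon
      push Not at hcon
      refine h j (by omega) (fun i hi hji => ?_) hj.2
      refine hcon i ?_ hji.symm
      rw [Finset.mem_filter, Finset.mem_range]
      exact ⟨hi, by rw [← hji]; exact hj.2⟩
  constructor
  · intro j hj
    have h1 : Nat.nth Nat.Prime (Nat.count Nat.Prime n + j) < n + (L + 1) := by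
      apply Nat.nth_lt_of_lt_count
      omega
    have h2 : n ≤ Nat.nth Nat.Prime (Nat.count Nat.Prime n + j) := by
      refine (Nat.le_nth_count Nat.infinite_setOfPred_prime n).trans ?_
      exact (Nat.nth_monotone Nat.infinite_setOfPred_prime) (Nat.le_add_right _ _)
    obtain ⟨t, ht⟩ := Nat.exists_eq_add_of_le h2
    by_contra hcon
    push Not at hcon
    refine h t (by omega) (fun i hi hti => ?_) ?_
    · exact hcon i hi (by rw [ht, hti])
    · rw [← ht]
      exact Nat.prime_nth_prime _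
  · rw [← hcount]
    exact Nat.lt_of_lt_of_le (by omega) (Nat.le_nth_count Nat.infinite_setOfPred_prime _)

end Pool.Agent.LibRC95
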