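import Pool.Agent.LibRC95.Ch

/-!
Chains of `k + 1` consecutive primes with record gaps, and isolated clusters of primes.
-/

set_option autoImplicit false

namespace Pool.Agent.LibRC95

open Finset Pool.Agent.LibT63 Filter
open scoped Nat

theorem nth_lt_succ (i : ℕ) : Nat.nth Nat.Prime i < Nat.nth Nat.Prime (i + 1) :=
  (Nat.nth_strictMono Nat.infinite_setOfPred_prime) (Nat.lt_succ_self i)

theorem chain (k : ℕ) : ∃ c : ℝ, 0 < c ∧ ∀ q : ℕ, 1 ≤ q → ∃ X₀ : ℝ, ∀ X : ℝ, X₀ ≤ X →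
    ∀ a : ℕ, a.Coprime q → ∃ i : ℕ, X ^ (1 / 2 : ℝ) ≤ Nat.nth Nat.Prime i ∧
      (Nat.nth Nat.Prime (i + k) : ℝ) ≤ 2 * X ∧ (∀ j ≤ k, Nat.nth Nat.Prime (i + j) ≡ a [MOD q]) ∧
      ∀ j < k, c * RX X ≤ (Nat.nth Nat.Prime (i + j + 1) : ℝ) - Nat.nth Nat.Prime (i + j) := by
  obtain ⟨K, hK, c₀, hc₀, hP⟩ := exists_pl (k + 1) (Nat.le_add_left 1 k)
  have hK0 : (0 : ℝ) < K := by exact_mod_cast hK
  refine ⟨c₀ / (2 * K), by positivity, fun q hq => ?_⟩
  obtain ⟨X1, hX1⟩ := ap hP q hq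
  obtain ⟨X2, hX2⟩ := Filter.eventually_atTop.1
    ((RX_le_X hc₀).and (RX_ge_const (2 * K * (q * K ! : ℕ) / c₀)))
  refine ⟨max X1 X2, fun X hX a ha => ?_⟩
  have hXa : X1 ≤ X := (le_max_left _ _).trans hX
  obtain ⟨hle, hge⟩ := hX2 X ((le_max_right _ _).trans hX)
  set R := RX X with hR
  set M : ℕ := q * K ! with hM
  have hM0 : 0 < M := Nat.mul_pos hq (Nat.factorial_pos K)
  have hM0' : (0 : ℝ) < M := by exact_mod_cast hM0
  have hR1 : 2 * K * (M : ℝ) ≤ c₀ * R := by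
    rw [div_le_iff₀ hc₀] at hge
    linarith
  have hRpos : 0 < c₀ * R := lt_of_lt_of_le (by positivity) hR1
  set t : ℕ := ⌊c₀ * R / (K * M)⌋₊ with ht
  have ht1 : (t : ℝ) ≤ c₀ * R / (K * M) := Nat.floor_le (by positivity)
  have ht2 : c₀ * R / (K * M) < t + 1 := Nat.lt_floor_add_one _
  rw [le_div_iff₀ (by positivity)] at ht1
  rw [div_lt_iff₀ (by positivity)] at ht2
  set D : ℕ := M * t with hD
  have hDc : (D : ℝ) = M * t := by rw [hD]; push_cast; ring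
  have hKD : (K : ℝ) * D ≤ c₀ * R := by rw [hDc]; linarith
  have hDge : c₀ / (2 * K) * R ≤ D := by
    have h1 : c₀ * R < K * D + K * M := by rw [hDc]; linarith
    have h2 : c₀ * R ≤ 2 * (K * D) := by linarith
    rw [div_mul_eq_mul_div, div_le_iff₀ (by positivity)]
    linarith
  have hD0 : 0 < D := by
    have h1 : 0 < c₀ / (2 * K) * R := by
      rw [div_mul_eq_mul_div]; positivity
    exact_mod_cast lt_of_lt_of_le h1 hDge
  have hqD : q ∣ D := (dvd_mul_right q (K !)).trans (Dvd.intro _ rfl)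
  obtain ⟨n, h1, h2, h3, h4, h5⟩ := hX1 X hXa a 0 D ha (dvd_zero q) (Dvd.intro _ rfl) hD0
    (by push_cast; rw [zero_add]; exact hKD)
  set L : ℕ := ⌊c₀ * R⌋₊ with hL
  have hL1 : (L : ℝ) ≤ c₀ * R := Nat.floor_le hRpos.le
  obtain ⟨h6, h7⟩ := primes_window (n := n) (T := 0) (D := D) (K := K) (L := L) hD0
    (by rw [zero_add]; apply Nat.le_floor; push_cast; exact hKD)
    (fun j hj hji => h5 j (le_trans (by exact_mod_cast hj) hL1) hji) _ rfl
  set i := Nat.count Nat.Prime n with hi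
  set s := ((range K).filter fun i => (n + (0 + i * D)).Prime).card with hs
  refine ⟨i, ?_, ?_, ?_, ?_⟩
  · obtain ⟨e, _, he⟩ := h6 0 (by omega)
    rw [add_zero] at he
    rw [he]
    refine h1.trans ?_
    push_cast
    have : (0 : ℝ) ≤ e * D := by positivity
    linarith
  · obtain ⟨e, he1, he⟩ := h6 k (by omega)
    rw [he]
    push_cast
    have h8 : (e : ℝ) * D ≤ K * D := by
      apply mul_le_mul_of_nonneg_right _ (by positivity)
      exact_mod_cast he1.le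
    linarith
  · intro j hj
    obtain ⟨e, _, he⟩ := h6 j (by omega)
    rw [he]
    have h8 : (0 + e * D) ≡ 0 [MOD q] := by
      rw [zero_add]
      exact (Nat.modEq_zero_iff_dvd).2 (hqD.mul_left e)
    calc n + (0 + e * D) ≡ n + 0 [MOD q] := Nat.ModEq.add_left n h8
      _ ≡ a [MOD q] := h3
  · intro j hj
    obtain ⟨e, _, he⟩ := h6 j (by omega)
    obtain ⟨e', _, he'⟩ := h6 (j + 1) (by omega)
    rw [← add_assoc] at he'
    have h8 := nth_lt_succ (i + j)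
    rw [he, he'] at h8
    have h9 : e * D < e' * D := by omega
    have h10 : e < e' := lt_of_mul_lt_mul_right h9 (Nat.zero_le _)
    have h11 : e * D + D ≤ e' * D := by
      have : (e + 1) * D ≤ e' * D := Nat.mul_le_mul_right _ h10
      linarith [this, add_mul e 1 D]
    have h12 : (e : ℝ) * D + D ≤ e' * D := by exact_mod_cast h11
    rw [he, he']
    push_cast
    linarith

theorem cluster (m : ℕ) : ∃ c : ℝ, 0 < c ∧ ∀ q : ℕ, 1 ≤ q → ∃ B : ℕ, ∃ X₀ : ℝ, ∀ X : ℝ, X₀ ≤ X →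
    ∀ a : ℕ, a.Coprime q → ∃ i r : ℕ, 1 ≤ i ∧ m ≤ r ∧ X ^ (1 / 2 : ℝ) ≤ Nat.nth Nat.Prime i ∧
      (Nat.nth Nat.Prime (i + r) : ℝ) ≤ 2 * X ∧
      Nat.nth Nat.Prime (i + r) ≤ Nat.nth Nat.Prime i + B ∧
      (∀ j ≤ r, Nat.nth Nat.Prime (i + j) ≡ a [MOD q]) ∧
      c * RX X ≤ (Nat.nth Nat.Prime i : ℝ) - Nat.nth Nat.Prime (i - 1) ∧
      c * RX X ≤ (Nat.nth Nat.Prime (i + r + 1) : ℝ) - Nat.nth Nat.Prime (i + r) := by
  obtain ⟨K, hK, c₀, hc₀, hP⟩ := exists_pl (m + 1) (Nat.le_add_left 1 m)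
  have hK0 : (0 : ℝ) < K := by exact_mod_cast hK
  refine ⟨c₀ / 4, by positivity, fun q hq => ?_⟩
  obtain ⟨X1, hX1⟩ := ap hP q hq
  set D : ℕ := q * K ! with hD
  have hD0 : 0 < D := Nat.mul_pos hq (Nat.factorial_pos K)
  have hq0 : (0 : ℝ) < q := by exact_mod_cast hq
  obtain ⟨X2, hX2⟩ := Filter.eventually_atTop.1
    ((RX_le_X hc₀).and (RX_ge_const (4 * (K * D + q) / c₀)))
  refine ⟨K * D, max (max X1 X2) 9, fun X hX a ha => ?_⟩
  have hXa : X1 ≤ X := (le_max_left _ _).trans ((le_max_left _ _).trans hX)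
  obtain ⟨hle, hge⟩ := hX2 X ((le_max_right _ _).trans ((le_max_left _ _).trans hX))
  have hX9 : 9 ≤ X := (le_max_right _ _).trans hX
  set R := RX X with hR
  have hR1 : 4 * (K * (D : ℝ) + q) ≤ c₀ * R := by
    rw [div_le_iff₀ hc₀] at hge
    linarith
  have hKD0 : (0 : ℝ) < K * D := by
    have : (0 : ℝ) < D := by exact_mod_cast hD0
    positivity
  have hRpos : 0 < c₀ * R := lt_of_lt_of_le (by positivity) hR1
  set t : ℕ := ⌊c₀ * R / (2 * q)⌋₊ with ht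
  have ht1 : (t : ℝ) ≤ c₀ * R / (2 * q) := Nat.floor_le (by positivity)
  have ht2 : c₀ * R / (2 * q) < t + 1 := Nat.lt_floor_add_one _
  rw [le_div_iff₀ (by positivity)] at ht1
  rw [div_lt_iff₀ (by positivity)] at ht2
  set T : ℕ := q * t with hT
  have hTc : (T : ℝ) = q * t := by rw [hT]; push_cast; ring
  have hT1 : (T : ℝ) ≤ c₀ * R / 2 := by rw [hTc]; linarith
  have hT2 : c₀ * R / 2 - q ≤ T := by rw [hTc]; linarith
  have hTK : (T : ℝ) + K * D ≤ c₀ * R := by linarith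
  obtain ⟨n, h1, h2, h3, h4, h5⟩ := hX1 X hXa a T D ha (Dvd.intro _ rfl) (dvd_refl _) hD0
    (by push_cast; exact hTK)
  set L : ℕ := ⌊c₀ * R⌋₊ with hL
  have hL1 : (L : ℝ) ≤ c₀ * R := Nat.floor_le hRpos.le
  have hL2 : c₀ * R < L + 1 := Nat.lt_floor_add_one _
  obtain ⟨h6, h7⟩ := primes_window (n := n) (T := T) (D := D) (K := K) (L := L) hD0
    (by apply Nat.le_floor; push_cast; exact hTK)
    (fun j hj hji => h5 j (le_trans (by exact_mod_cast hj) hL1) hji) _ rfl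
  set i := Nat.count Nat.Prime n with hi
  set s := ((range K).filter fun i => (n + (T + i * D)).Prime).card with hs
  obtain ⟨r, hr⟩ : ∃ r, s = r + 1 := ⟨s - 1, by omega⟩
  have hn3 : 3 ≤ n := by
    have h8 : (3 : ℝ) ≤ X ^ (1 / 2 : ℝ) := by
      rw [← Real.sqrt_eq_rpow]
      apply Real.le_sqrt_of_sq_le
      linarith
    exact_mod_cast h8.trans h1
  have hi1 : 1 ≤ i := by
    have h8 : Nat.count Nat.Prime 3 ≤ Nat.count Nat.Prime n := Nat.count_monotone _ hn3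
    have h9 : Nat.count Nat.Prime 3 = 1 := by decide
    omega
  obtain ⟨e₀, he₀, hn0⟩ := h6 0 (by omega)
  rw [add_zero] at hn0
  obtain ⟨e₁, he₁, hn1⟩ := h6 r (by omega)
  have h8 : (e₁ : ℝ) * D ≤ K * D := by
    apply mul_le_mul_of_nonneg_right _ (by positivity)
    exact_mod_cast he₁.le
  have h8' : e₁ * D ≤ K * D := Nat.mul_le_mul_right _ he₁.le
  have h9 : (0 : ℝ) ≤ e₀ * D := by positivity
  refine ⟨i, r, hi1, by omega, ?_, ?_, ?_, ?_, ?_, ?_⟩
  · rw [hn0]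
    push_cast
    have : (0 : ℝ) ≤ T := by positivity
    linarith
  · rw [hn1]
    push_cast
    linarith
  · rw [hn0, hn1]
    have : 0 ≤ e₀ * D := Nat.zero_le _
    omega
  · intro j hj
    obtain ⟨e, _, he⟩ := h6 j (by omega)
    rw [he]
    have hqT : q ∣ T + e * D := dvd_add (Dvd.intro _ rfl) (Dvd.dvd.mul_left (Dvd.intro _ rfl) e)
    have h10 : (T + e * D) ≡ 0 [MOD q] := (Nat.modEq_zero_iff_dvd).2 hqT
    calc n + (T + e * D) ≡ n + 0 [MOD q] := Nat.ModEq.add_left n h10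
      _ ≡ a [MOD q] := h3
  · have h10 : Nat.nth Nat.Prime (i - 1) < n := Nat.nth_lt_of_lt_count (by omega)
    have h11 : (Nat.nth Nat.Prime (i - 1) : ℝ) < n := by exact_mod_cast h10
    rw [hn0]
    push_cast
    linarith
  · have h10 : n + L + 1 ≤ Nat.nth Nat.Prime (i + r + 1) := by
      rw [hr, ← add_assoc] at h7
      exact h7
    have h11 : (n : ℝ) + L + 1 ≤ Nat.nth Nat.Prime (i + r + 1) := by exact_mod_cast h10
    rw [hn1]
    push_cast
    linarith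

end Pool.Agent.LibRC95
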