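import Pool.Agent.LibRC95.Co

/-!
Many vectors of consecutive gaps of record size, each of them attained often, increasing and decreasing.
-/

set_option autoImplicit false

namespace Pool.Agent.LibRC95

open Finset Pool.Agent.LibT63 Filter
open scoped Nat

/-- the primes of a window all of whose primes are at prescribed places -/
theorem primes_places {n K L : ℕ} (u : Fin K → ℕ) (hu : StrictMono u) (hL : ∀ i, u i ≤ L)
    (h : ∀ j ≤ L, (∀ i, j ≠ u i) → ¬ (n + j).Prime) (k : ℕ)
    (hk : k + 1 ≤ (univ.filter fun i => (n + u i).Prime).card) :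
    ∃ ι : Fin (k + 1) → Fin K, StrictMono ι ∧
      ∀ j : Fin (k + 1), Nat.nth Nat.Prime (Nat.count Nat.Prime n + j) = n + u (ι j) := by
  classical
  have hcount : Nat.count Nat.Prime n + (k + 1) ≤ Nat.count Nat.Prime (n + (L + 1)) := by
    rw [Nat.count_add]
    apply Nat.add_le_add_left
    refine hk.trans ?_
    rw [Nat.count_eq_card_filter_range]
    apply Finset.card_le_card_of_injOn (fun i => u i)
    · intro i hi
      rw [Finset.mem_coe, Finset.mem_filter] at hi
      rw [Finset.mem_coe, Finset.mem_filter, Finset.mem_range]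
      exact ⟨Nat.lt_succ_of_le (hL i), hi.2⟩
    · intro i _ j _ hij
      exact hu.injective hij
  have hex : ∀ j : Fin (k + 1), ∃ i : Fin K,
      Nat.nth Nat.Prime (Nat.count Nat.Prime n + j) = n + u i := by
    intro j
    have h1 : Nat.nth Nat.Prime (Nat.count Nat.Prime n + j) < n + (L + 1) := by
      apply Nat.nth_lt_of_lt_count
      have := j.2
      omega
    have h2 : n ≤ Nat.nth Nat.Prime (Nat.count Nat.Prime n + j) := by
      refine (Nat.le_nth_count Nat.infinite_setOfPred_prime n).trans ?_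
      exact (Nat.nth_monotone Nat.infinite_setOfPred_prime) (Nat.le_add_right _ _)
    obtain ⟨t, ht⟩ := Nat.exists_eq_add_of_le h2
    by_contra hcon
    push Not at hcon
    refine h t (by omega) (fun i hti => ?_) ?_
    · exact hcon i (by rw [ht, hti])
    · rw [← ht]
      exact Nat.prime_nth_prime _
  choose ι hι using hex
  refine ⟨ι, ?_, hι⟩
  intro j j' hjj
  have h1 : Nat.nth Nat.Prime (Nat.count Nat.Prime n + j) <
      Nat.nth Nat.Prime (Nat.count Nat.Prime n + j') :=
    (Nat.nth_strictMono Nat.infinite_setOfPred_prime) (Nat.add_lt_add_left hjj _)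
  rw [hι, hι] at h1
  exact hu.lt_iff_lt.1 (by omega)

/-- the places `t_i = (w_i M + f i) D` -/
def pla (D M : ℕ) {K : ℕ} (w : Fin K → ℕ) (f : Fin K → Fin M) (i : Fin K) : ℕ :=
  (w i * M + f i) * D

theorem pla_gap {D M K : ℕ} {w : Fin K → ℕ} (hw : ∀ i j, i < j → w i + 2 ≤ w j)
    (f : Fin K → Fin M) {i j : Fin K} (hij : i < j) : pla D M w f i + M * D ≤ pla D M w f j := by
  unfold pla
  rw [← add_mul]
  apply Nat.mul_le_mul_right
  have h1 := (f i).2
  have h3 : (w i + 2) * M ≤ w j * M := Nat.mul_le_mul_right _ (hw i j hij)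
  have h4 : (w i + 2) * M = w i * M + 2 * M := by ring
  omega

theorem pla_strictMono {D M K : ℕ} (hM : 0 < M) (hD : 0 < D) {w : Fin K → ℕ}
    (hw : ∀ i j, i < j → w i + 2 ≤ w j) (f : Fin K → Fin M) : StrictMono (pla D M w f) := by
  intro i j hij
  have h1 := pla_gap (D := D) hw f hij
  have h2 : 0 < M * D := Nat.mul_pos hM hD
  omega

theorem pla_inj {D M K : ℕ} (hD : 0 < D) (w : Fin K → ℕ) (f f' : Fin K → Fin M) (i : Fin K)
    (h : pla D M w f i = pla D M w f' i) : f i = f' i := by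
  unfold pla at h
  have h1 := Nat.eq_of_mul_eq_mul_right hD h
  exact Fin.ext (by omega)

theorem pla_le (D : ℕ) {M K W : ℕ} {w : Fin K → ℕ} (hW : ∀ i, w i + 1 ≤ W) (f : Fin K → Fin M)
    (i : Fin K) : pla D M w f i ≤ W * M * D := by
  unfold pla
  apply Nat.mul_le_mul_right
  have h3 := (f i).2
  have h5 : (w i + 1) * M ≤ W * M := Nat.mul_le_mul_right _ (hW i)
  have h6 : (w i + 1) * M = w i * M + M := by ring
  omega

/-- counting -/
theorem many_vectors (k K M D W : ℕ) (hM : 0 < M) (hD : 0 < D) (w : Fin K → ℕ)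
    (hw : ∀ i j, i < j → w i + 2 ≤ w j) (hW : ∀ i, w i + 1 ≤ W) (P : (Fin k → ℕ) → Prop)
    (h : ∀ f : Fin K → Fin M, ∃ ι : Fin (k + 1) → Fin K, StrictMono ι ∧
      P (fun j => pla D M w f (ι j.succ) - pla D M w f (ι j.castSucc))) :
    ∃ V : Finset (Fin k → ℕ), M ^ k ≤ K ^ (k + 1) * V.card ∧
      ∀ v ∈ V, (∃ (f : Fin K → Fin M) (ι : Fin (k + 1) → Fin K), StrictMono ι ∧
        v = (fun j => pla D M w f (ι j.succ) - pla D M w f (ι j.castSucc)) ∧ P v) ∧
        ∀ j, M * D ≤ v j ∧ v j ≤ W * M * D := by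
  classical
  choose ι hι hP using h
  let z : Fin M := ⟨0, hM⟩
  let κ : (Fin K → Fin M) → (Fin (k + 1) → Fin K) × (Fin K → Fin M) := fun f =>
    (ι f, fun i => if i ∈ (univ : Finset (Fin k)).image (fun j => ι f j.succ) then z else f i)
  let Sι : (Fin (k + 1) → Fin K) → Finset ((Fin (k + 1) → Fin K) × (Fin K → Fin M)) := fun ι' =>
    (Fintype.piFinset (fun i => if i ∈ (univ : Finset (Fin k)).image (fun j => ι' j.succ)
      then {z} else (univ : Finset (Fin M)))).image (fun g => (ι', g))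
  let S : Finset ((Fin (k + 1) → Fin K) × (Fin K → Fin M)) :=
    ((univ : Finset (Fin (k + 1) → Fin K)).filter StrictMono).biUnion Sι
  have hmem : ∀ f ∈ (univ : Finset (Fin K → Fin M)), κ f ∈ S := by
    intro f _
    refine Finset.mem_biUnion.2 ⟨ι f, Finset.mem_filter.2 ⟨Finset.mem_univ _, hι f⟩, ?_⟩
    refine Finset.mem_image.2 ⟨_, ?_, rfl⟩
    rw [Fintype.mem_piFinset]
    intro i
    by_cases hi : i ∈ (univ : Finset (Fin k)).image (fun j => ι f j.succ)
    · simp only [hi, if_true, Finset.mem_singleton]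
    · simp only [hi, if_false, Finset.mem_univ]
  have hS : S.card ≤ K ^ (k + 1) * M ^ (K - k) := by
    refine (Finset.card_biUnion_le_card_mul _ _ (M ^ (K - k)) ?_).trans ?_
    · intro ι' hι'
      refine Finset.card_image_le.trans ?_
      rw [Fintype.card_piFinset]
      have h1 : ∀ i : Fin K, (if i ∈ (univ : Finset (Fin k)).image (fun j => ι' j.succ)
          then ({z} : Finset (Fin M)) else univ).card =
          if i ∈ (univ : Finset (Fin k)).image (fun j => ι' j.succ) then 1 else M := by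
        intro i
        split_ifs
        · rfl
        · rw [Finset.card_univ, Fintype.card_fin]
      rw [Finset.prod_congr rfl (fun i _ => h1 i), Finset.prod_ite, Finset.prod_const_one, one_mul,
        Finset.prod_const]
      apply le_of_eq
      congr 1
      have h2 : (univ : Finset (Fin K)).filter
          (fun i => i ∉ (univ : Finset (Fin k)).image (fun j => ι' j.succ)) =
          ((univ : Finset (Fin k)).image (fun j => ι' j.succ))ᶜ := by
        ext i; simp
      rw [h2, Finset.card_compl, Fintype.card_fin, Finset.card_image_of_injective, Finset.card_univ,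
        Fintype.card_fin]
      intro j j' hjj
      exact Fin.succ_injective _ ((Finset.mem_filter.1 hι').2.injective hjj)
    · apply Nat.mul_le_mul_right
      refine (Finset.card_filter_le _ _).trans ?_
      rw [Finset.card_univ, Fintype.card_fun, Fintype.card_fin, Fintype.card_fin]
  have f₀ : Fin K → Fin M := fun _ => z
  have hkK : k + 1 ≤ K := by
    have := Fintype.card_le_of_injective (ι f₀) (hι f₀).injective
    simpa using this
  have hSne : S.Nonempty := ⟨κ f₀, hmem f₀ (Finset.mem_univ _)⟩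
  obtain ⟨y, hy, hymax⟩ := Finset.exists_max_image S
    (fun y => ((univ : Finset (Fin K → Fin M)).filter (fun f => κ f = y)).card) hSne
  set Fy := (univ : Finset (Fin K → Fin M)).filter (fun f => κ f = y) with hFy
  have hcard : M ^ K ≤ Fy.card * (K ^ (k + 1) * M ^ (K - k)) := by
    have h1 := Finset.card_le_mul_card_image_of_maps_to hmem Fy.card (fun a ha => hymax a ha)
    rw [Finset.card_univ, Fintype.card_fun, Fintype.card_fin, Fintype.card_fin] at h1
    exact h1.trans (Nat.mul_le_mul_left _ hS)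
  have hpos : 0 < M ^ (K - k) := pow_pos hM _
  have hMk : M ^ k ≤ K ^ (k + 1) * Fy.card := by
    have h1 : M ^ k * M ^ (K - k) = M ^ K := by
      rw [← pow_add]; congr 1; omega
    have h2 : M ^ k * M ^ (K - k) ≤ K ^ (k + 1) * Fy.card * M ^ (K - k) := by
      rw [h1]
      refine hcard.trans (le_of_eq ?_)
      ring
    exact Nat.le_of_mul_le_mul_right h2 hpos
  let vec : (Fin K → Fin M) → Fin k → ℕ := fun f j =>
    pla D M w f (ι f j.succ) - pla D M w f (ι f j.castSucc)
  refine ⟨Fy.image vec, ?_, ?_⟩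
  · rw [Finset.card_image_of_injOn]
    · exact hMk
    · intro f hf f' hf' hv
      have hf1 : κ f = y := (Finset.mem_filter.1 hf).2
      have hf2 : κ f' = y := (Finset.mem_filter.1 hf').2
      have hff : κ f = κ f' := hf1.trans hf2.symm
      have e1 : ι f = ι f' := congrArg Prod.fst hff
      have e2 := congrArg Prod.snd hff
      have e3 : ∀ i, i ∉ (univ : Finset (Fin k)).image (fun j => ι f j.succ) → f i = f' i := by
        intro i hi
        have h1 := congrFun e2 i
        have hi' : i ∉ (univ : Finset (Fin k)).image (fun j => ι f' j.succ) := by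
          rw [← e1]; exact hi
        simp only [κ, hi, hi', if_false] at h1
        exact h1
      have e4 : ∀ j : Fin (k + 1), f (ι f j) = f' (ι f j) := by
        intro j
        induction j using Fin.induction with
        | zero =>
          apply e3
          intro hmem0
          obtain ⟨j, _, hj⟩ := Finset.mem_image.1 hmem0
          exact absurd ((hι f).injective hj) (Fin.succ_ne_zero j)
        | succ j ih =>
          have h1 : vec f j = vec f' j := congrFun hv j
          simp only [vec] at h1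
          rw [← e1] at h1
          have h2 : pla D M w f (ι f j.castSucc) = pla D M w f' (ι f j.castSucc) := by
            unfold pla; rw [ih]
          have h3 := (pla_strictMono hM hD hw f) ((hι f) (Fin.castSucc_lt_succ (i := j)))
          have h4 := (pla_strictMono hM hD hw f') ((hι f) (Fin.castSucc_lt_succ (i := j)))
          apply pla_inj hD w f f'
          omega
      funext i
      by_cases hi : i ∈ (univ : Finset (Fin k)).image (fun j => ι f j.succ)
      · obtain ⟨j, _, rfl⟩ := Finset.mem_image.1 hi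
        exact e4 j.succ
      · exact e3 i hi
  · intro v hv
    obtain ⟨f, _, rfl⟩ := Finset.mem_image.1 hv
    refine ⟨⟨f, ι f, hι f, rfl, hP f⟩, fun j => ?_⟩
    have h1 := pla_gap (D := D) hw f ((hι f) (Fin.castSucc_lt_succ (i := j)))
    have h2 := pla_le D hW f (ι f j.succ)
    simp only [vec]
    omega

open scoped Classical in
/-- The theorem on prescribed places for given `m`, `K`, `c`, with the number of `n`. -/
def PlM (m K : ℕ) (c : ℝ) : Prop :=
  ∀ q : ℕ, 1 ≤ q → ∃ X₀ : ℝ, ∀ X : ℝ, X₀ ≤ X → ∀ (a : ℕ) (H : Finset ℕ), H.card = K →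
    (∀ h ∈ H, (h : ℝ) ≤ c * RX X) → (∀ h ∈ H, (a + h).Coprime q) →
    (∀ p : ℕ, p.Prime → ¬ p ∣ q → ∃ r : ℕ, ∀ h ∈ H, ¬ h ≡ r [MOD p]) →
    X ^ (19 / 20 : ℝ) ≤ (((Icc 1 ⌊X⌋₊).filter fun n : ℕ => X ^ (1 / 2 : ℝ) ≤ n ∧ n ≡ a [MOD q] ∧
        m ≤ (H.filter fun h => (n + h).Prime).card ∧
        ∀ j : ℕ, (j : ℝ) ≤ c * RX X → j ∉ H → ¬ (n + j).Prime).card : ℝ)

theorem exists_plM (m : ℕ) (hm : 1 ≤ m) : ∃ K : ℕ, 1 ≤ K ∧ ∃ c : ℝ, 0 < c ∧ PlM m K c := by
  classical
  obtain ⟨C, hC⟩ := E5_final 1000 le_rfl E6_good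
  refine ⟨⌈Real.exp (C * m)⌉₊, ?_, ?_⟩
  · exact Nat.one_le_iff_ne_zero.2 (Nat.ceil_pos.2 (Real.exp_pos _)).ne'
  obtain ⟨c, hc, h⟩ := hC m _ hm (Nat.le_ceil _)
  refine ⟨c, hc, fun q hq => ?_⟩
  obtain ⟨X₀, h0⟩ := h q hq (1 / 2) (by norm_num)
  refine ⟨X₀, fun X hX a H hH hle hcop hadm => ?_⟩
  have e : c * Real.log X * (Real.log (Real.log X)) ^ 2 *
      Real.log (Real.log (Real.log (Real.log X))) / (Real.log (Real.log (Real.log X))) ^ 2 =
      c * RX X := by
    unfold RX; ring
  have h1 := h0 X hX a H hH (fun h hh => by rw [e]; exact hle h hh) hcop hadm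
  have h2 : (1 - 1 / 2 : ℝ) = 1 / 2 := by norm_num
  simp only [e, h2] at h1
  exact h1


open scoped Classical in
/-- the strings of `k + 1` consecutive primes in `[X^(1/2), 2X]`, all `≡ a (mod q)`, with the gaps `g` (by the index of the first one) -/
noncomputable def strings (k : ℕ) (X : ℝ) (a q : ℕ) (g : Fin k → ℕ) : Finset ℕ :=
  (range (⌊2 * X⌋₊ + 1)).filter fun i : ℕ => X ^ (1 / 2 : ℝ) ≤ Nat.nth Nat.Prime i ∧
    (Nat.nth Nat.Prime (i + k) : ℝ) ≤ 2 * X ∧ (∀ j ≤ k, Nat.nth Nat.Prime (i + j) ≡ a [MOD q]) ∧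
    ∀ j : Fin k, Nat.nth Nat.Prime (i + j + 1) = Nat.nth Nat.Prime (i + j) + g j

theorem pow_ge_eventually (B : ℝ) : ∀ᶠ X : ℝ in atTop,
    B * (X ^ (9 / 10 : ℝ) + 1) ≤ X ^ (19 / 20 : ℝ) := by
  have h1 : Tendsto (fun X : ℝ => X ^ (1 / 20 : ℝ)) atTop atTop := tendsto_rpow_atTop (by norm_num)
  filter_upwards [h1.eventually_ge_atTop (2 * |B|), eventually_ge_atTop 1] with X hX hX1
  have h2 : (1 : ℝ) ≤ X ^ (9 / 10 : ℝ) := Real.one_le_rpow hX1 (by norm_num)
  have h3 : X ^ (19 / 20 : ℝ) = X ^ (1 / 20 : ℝ) * X ^ (9 / 10 : ℝ) := by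
    rw [← Real.rpow_add (by linarith)]; norm_num
  rw [h3]
  have h4 : B * (X ^ (9 / 10 : ℝ) + 1) ≤ |B| * (X ^ (9 / 10 : ℝ) + 1) :=
    mul_le_mul_of_nonneg_right (le_abs_self B) (by linarith)
  have h5 : |B| * (X ^ (9 / 10 : ℝ) + 1) ≤ |B| * (2 * X ^ (9 / 10 : ℝ)) :=
    mul_le_mul_of_nonneg_left (by linarith) (abs_nonneg B)
  have h6 : 2 * |B| * X ^ (9 / 10 : ℝ) ≤ X ^ (1 / 20 : ℝ) * X ^ (9 / 10 : ℝ) :=
    mul_le_mul_of_nonneg_right hX (by linarith)
  linarith

/-- Vectors of `k` consecutive gaps at places with prescribed weights. -/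
theorem vectors_w (k : ℕ) : ∃ K : ℕ, 1 ≤ K ∧ ∀ (w : Fin K → ℕ) (W : ℕ), 1 ≤ W →
    (∀ i j, i < j → w i + 2 ≤ w j) → (∀ i, w i + 1 ≤ W) →
    ∃ c : ℝ, 0 < c ∧ ∀ q : ℕ, 1 ≤ q → ∃ X₀ : ℝ, ∀ X : ℝ, X₀ ≤ X →
    ∀ a : ℕ, a.Coprime q → ∃ M D : ℕ, 0 < M ∧ 0 < D ∧
      ∃ V : Finset (Fin k → ℕ), c * (RX X / q) ^ k ≤ V.card ∧
      ∀ g ∈ V, (∀ j, c * RX X ≤ g j ∧ (g j : ℝ) ≤ RX X / c) ∧
        X ^ (9 / 10 : ℝ) ≤ (strings k X a q g).card ∧
        ∃ (f : Fin K → Fin M) (ι : Fin (k + 1) → Fin K), StrictMono ι ∧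
          g = fun j => pla D M w f (ι j.succ) - pla D M w f (ι j.castSucc) := by
  classical
  obtain ⟨K, hK, c₀, hc₀, hP⟩ := exists_plM (k + 1) (Nat.le_add_left 1 k)
  refine ⟨K, hK, fun w W hW1 hw hW => ?_⟩
  have hK0 : (0 : ℝ) < K := by exact_mod_cast hK
  have hW0 : (0 : ℝ) < W := by exact_mod_cast hW1
  have hKf : (0 : ℝ) < K ! := by exact_mod_cast Nat.factorial_pos K
  set c₁ : ℝ := c₀ / (2 * W * K !) with hc₁
  have hc₁0 : 0 < c₁ := by positivity
  set c₂ : ℝ := min (1 / c₀) (min (c₀ / (2 * W)) (c₁ ^ k / (K : ℝ) ^ (k + 1))) with hc₂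
  have hc₂0 : 0 < c₂ := lt_min (by positivity) (lt_min (by positivity) (by positivity))
  refine ⟨c₂, hc₂0, fun q hq => ?_⟩
  have hq0 : (0 : ℝ) < q := by exact_mod_cast hq
  obtain ⟨X1, hX1⟩ := hP q hq
  set D : ℕ := q * K ! with hD
  have hD0 : 0 < D := Nat.mul_pos hq (Nat.factorial_pos K)
  have hD0' : (0 : ℝ) < D := by exact_mod_cast hD0
  obtain ⟨X2, hX2⟩ := Filter.eventually_atTop.1
    (((RX_le_X hc₀).and (RX_ge_const (2 * W * D / c₀))).and
      ((pow_ge_eventually ((K : ℝ) ^ (k + 1))).and (eventually_ge_atTop 1)))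
  refine ⟨max X1 X2, fun X hX a ha => ?_⟩
  have hXa : X1 ≤ X := (le_max_left _ _).trans hX
  obtain ⟨⟨hle, hge⟩, hpw, hX1'⟩ := hX2 X ((le_max_right _ _).trans hX)
  set R := RX X with hR
  have hR1 : 2 * W * (D : ℝ) ≤ c₀ * R := by
    rw [div_le_iff₀ hc₀] at hge
    linarith
  have hRpos : 0 < c₀ * R := lt_of_lt_of_le (by positivity) hR1
  have hRpos' : 0 < R := by
    rcases pos_and_pos_or_neg_and_neg_of_mul_pos hRpos with h | h
    · exact h.2
    · linarith [h.1]
  set M : ℕ := ⌊c₀ * R / (W * D)⌋₊ with hM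
  have hM1 : (M : ℝ) ≤ c₀ * R / (W * D) := Nat.floor_le (by positivity)
  have hM2 : c₀ * R / (W * D) < M + 1 := Nat.lt_floor_add_one _
  have h2 : (2 : ℝ) ≤ c₀ * R / (W * D) := by
    rw [le_div_iff₀ (by positivity)]; linarith
  have hM3 : c₀ * R / (2 * W * D) ≤ M := by
    have h3 : c₀ * R / (2 * W * D) = c₀ * R / (W * D) / 2 := by field_simp
    rw [h3]; linarith
  have hMpos : 0 < M := by
    have : (0 : ℝ) < M := lt_of_lt_of_le (by positivity) hM3
    exact_mod_cast this
  have hM4 : W * (M : ℝ) * D ≤ c₀ * R := by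
    rw [le_div_iff₀ (by positivity)] at hM1
    linarith
  set L : ℕ := ⌊c₀ * R⌋₊ with hL
  have hL1 : (L : ℝ) ≤ c₀ * R := Nat.floor_le hRpos.le
  have hplaR : ∀ (f : Fin K → Fin M) (i : Fin K), (pla D M w f i : ℝ) ≤ c₀ * R := by
    intro f i
    refine le_trans ?_ hM4
    exact_mod_cast pla_le D hW f i
  have hDdvd : ∀ (f : Fin K → Fin M) (i : Fin K), D ∣ pla D M w f i := by
    intro f i
    exact Dvd.intro_left _ rfl
  obtain ⟨V, hV1, hV2⟩ := many_vectors k K M D W hMpos hD0 w hw hW (fun g =>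
      X ^ (9 / 10 : ℝ) ≤ (strings k X a q g).card) (by
    intro f
    have hqD : q ∣ D := Dvd.intro _ rfl
    have hmain := hX1 X hXa a ((univ : Finset (Fin K)).image (pla D M w f))
      (by rw [Finset.card_image_of_injective _ (pla_strictMono hMpos hD0 hw f).injective,
        Finset.card_univ, Fintype.card_fin])
      (by
        intro h hh
        obtain ⟨i, _, rfl⟩ := Finset.mem_image.1 hh
        exact hplaR f i)
      (by
        intro h hh
        obtain ⟨i, _, rfl⟩ := Finset.mem_image.1 hh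
        obtain ⟨t, ht⟩ : q ∣ pla D M w f i := hqD.trans (hDdvd f i)
        rw [ht]
        have : (a + q * t).Coprime q ↔ a.Coprime q := by simp
        rw [this]; exact ha)
      (by
        intro p hp hpq
        by_cases hpK : p ≤ K
        · have hpD : p ∣ D := (hp.dvd_factorial.2 hpK).mul_left q
          refine ⟨1, fun h hh => ?_⟩
          obtain ⟨i, _, rfl⟩ := Finset.mem_image.1 hh
          intro hmod
          have h7 : p ∣ 1 := (hmod.dvd_iff (dvd_refl p)).1 (hpD.trans (hDdvd f i))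
          exact hp.one_lt.ne' (Nat.dvd_one.1 h7)
        · by_contra hcon
          push Not at hcon
          have h6 : (range p).card ≤ ((univ : Finset (Fin K)).image
              fun i => (pla D M w f i) % p).card := by
            apply Finset.card_le_card
            intro r hr
            obtain ⟨h, hh, hmod⟩ := hcon r
            obtain ⟨i, _, rfl⟩ := Finset.mem_image.1 hh
            refine Finset.mem_image.2 ⟨i, Finset.mem_univ _, ?_⟩
            have h7 : (pla D M w f i) % p = r % p := hmod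
            rw [h7, Nat.mod_eq_of_lt (Finset.mem_range.1 hr)]
          have h8 := h6.trans Finset.card_image_le
          rw [card_range, Finset.card_univ, Fintype.card_fin] at h8
          exact hpK h8)
    set N : Finset ℕ := (Icc 1 ⌊X⌋₊).filter fun n : ℕ => X ^ (1 / 2 : ℝ) ≤ n ∧ n ≡ a [MOD q] ∧
        k + 1 ≤ (((univ : Finset (Fin K)).image (pla D M w f)).filter fun h => (n + h).Prime).card ∧
        ∀ j : ℕ, (j : ℝ) ≤ c₀ * R → j ∉ (univ : Finset (Fin K)).image (pla D M w f) →
          ¬ (n + j).Prime with hN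
    have hι : ∀ n : ℕ, ∃ ι : Fin (k + 1) → Fin K, n ∈ N → StrictMono ι ∧
        ∀ j : Fin (k + 1), Nat.nth Nat.Prime (Nat.count Nat.Prime n + j) = n + pla D M w f (ι j) := by
      intro n
      by_cases hn : n ∈ N
      · obtain ⟨_, h3, h5, h6, h7⟩ := Finset.mem_filter.1 hn
        obtain ⟨ι, hι1, hι2⟩ := primes_places (n := n) (L := L) (pla D M w f)
          (pla_strictMono hMpos hD0 hw f)
          (fun i => Nat.le_floor (hplaR f i))
          (fun j hj hji => h7 j (le_trans (by exact_mod_cast hj) hL1) (by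
            intro hjm
            obtain ⟨i, _, hi⟩ := Finset.mem_image.1 hjm
            exact hji i hi.symm)) k (by
            refine h6.trans ?_
            rw [Finset.filter_image]
            exact Finset.card_image_le)
        exact ⟨ι, fun _ => ⟨hι1, hι2⟩⟩
      · exact ⟨fun _ => ⟨0, hK⟩, fun h => absurd h hn⟩
    choose ι hι using hι
    have hcardι : ((univ : Finset (Fin (k + 1) → Fin K)).card : ℝ) = (K : ℝ) ^ (k + 1) := by
      rw [Finset.card_univ, Fintype.card_fun, Fintype.card_fin, Fintype.card_fin]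
      push_cast
      rfl
    obtain ⟨ι₀, _, hι₀⟩ := Finset.exists_le_card_fiber_of_mul_le_card_of_maps_to
      (s := N) (t := (univ : Finset (Fin (k + 1) → Fin K))) (f := ι) (n := ⌈X ^ (9 / 10 : ℝ)⌉₊)
      (fun _ _ => Finset.mem_univ _) ⟨fun _ => ⟨0, hK⟩, Finset.mem_univ _⟩ (by
        have h3 : (⌈X ^ (9 / 10 : ℝ)⌉₊ : ℝ) ≤ X ^ (9 / 10 : ℝ) + 1 :=
          (Nat.ceil_lt_add_one (Real.rpow_nonneg (by linarith) _)).le
        have h4 : ((univ : Finset (Fin (k + 1) → Fin K)).card : ℝ) * (⌈X ^ (9 / 10 : ℝ)⌉₊ : ℝ) ≤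
            (N.card : ℝ) := by
          rw [hcardι]
          refine le_trans (mul_le_mul_of_nonneg_left h3 (by positivity)) (hpw.trans hmain)
        exact_mod_cast h4)
    have hNe : (N.filter fun n => ι n = ι₀).Nonempty := by
      rw [← Finset.card_pos]
      refine lt_of_lt_of_le ?_ hι₀
      exact Nat.ceil_pos.2 (Real.rpow_pos_of_pos (by linarith) _)
    obtain ⟨n₀, hn₀⟩ := hNe
    obtain ⟨hn₀, hn₀'⟩ := Finset.mem_filter.1 hn₀
    have hmono : StrictMono ι₀ := by
      rw [← hn₀']; exact (hι n₀ hn₀).1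
    refine ⟨ι₀, hmono, ?_⟩
    have h10 : ((⌈X ^ (9 / 10 : ℝ)⌉₊ : ℕ) : ℝ) ≤ ((strings k X a q
        fun j => pla D M w f (ι₀ j.succ) - pla D M w f (ι₀ j.castSucc)).card : ℝ) := by
      have h11 : (N.filter fun n => ι n = ι₀).card ≤ (strings k X a q
          fun j => pla D M w f (ι₀ j.succ) - pla D M w f (ι₀ j.castSucc)).card := by
        apply Finset.card_le_card_of_injOn (fun n => Nat.count Nat.Prime n)
        · intro n hn
          obtain ⟨hn, hn'⟩ := Finset.mem_filter.1 (Finset.mem_coe.1 hn)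
          obtain ⟨h3', h3, h5, h6, h7⟩ := Finset.mem_filter.1 hn
          have hι2 := (hι n hn).2
          rw [hn'] at hι2
          have hnX : (n : ℝ) ≤ X := by
            have := (Finset.mem_Icc.1 h3').2
            exact (Nat.le_floor_iff (by linarith)).1 this
          rw [Finset.mem_coe]
          refine Finset.mem_filter.2 ⟨?_, ?_, ?_, ?_, ?_⟩
          · rw [Finset.mem_range]
            have h12 : Nat.count Nat.Prime n ≤ n := by
              rw [Nat.count_eq_card_filter_range]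
              exact (Finset.card_filter_le _ _).trans (le_of_eq (Finset.card_range n))
            have h13 : n ≤ ⌊2 * X⌋₊ := Nat.le_floor (by linarith)
            change Nat.count Nat.Prime n < ⌊2 * X⌋₊ + 1
            omega
          · have h8 := hι2 0
            rw [Fin.val_zero, add_zero] at h8
            rw [h8]
            refine h3.trans ?_
            push_cast
            have : (0 : ℝ) ≤ pla D M w f (ι₀ 0) := Nat.cast_nonneg _
            linarith
          · have h8 := hι2 (Fin.last k)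
            rw [Fin.val_last] at h8
            rw [h8]
            push_cast
            have := hplaR f (ι₀ (Fin.last k))
            linarith
          · intro j hj
            have h8 := hι2 ⟨j, Nat.lt_succ_of_le hj⟩
            have h9 : (n + pla D M w f (ι₀ ⟨j, Nat.lt_succ_of_le hj⟩)) ≡ n + 0 [MOD q] :=
              Nat.ModEq.add_left n ((Nat.modEq_zero_iff_dvd).2 (hqD.trans (hDdvd f _)))
            have h10 : Nat.nth Nat.Prime (Nat.count Nat.Prime n + j) =
                n + pla D M w f (ι₀ ⟨j, Nat.lt_succ_of_le hj⟩) := h8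
            rw [h10]
            exact h9.trans h5
          · intro j
            have h8 := hι2 j.succ
            have h9 := hι2 j.castSucc
            rw [Fin.val_succ] at h8
            rw [Fin.val_castSucc] at h9
            have h10 := (pla_strictMono hMpos hD0 hw f) (hmono (Fin.castSucc_lt_succ (i := j)))
            rw [add_assoc, h8, h9]
            change n + pla D M w f (ι₀ j.succ) = n + pla D M w f (ι₀ j.castSucc) +
              (pla D M w f (ι₀ j.succ) - pla D M w f (ι₀ j.castSucc))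
            omega
        · intro n hn n' hn' hnn
          obtain ⟨hn, hn1⟩ := Finset.mem_filter.1 (Finset.mem_coe.1 hn)
          obtain ⟨hn', hn1'⟩ := Finset.mem_filter.1 (Finset.mem_coe.1 hn')
          have h8 := (hι n hn).2 0
          have h9 := (hι n' hn').2 0
          rw [hn1] at h8
          rw [hn1'] at h9
          have h10 : Nat.count Nat.Prime n = Nat.count Nat.Prime n' := hnn
          rw [h10, h9] at h8
          omega
      exact_mod_cast hι₀.trans h11
    exact (Nat.le_ceil _).trans h10)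
  refine ⟨M, D, hMpos, hD0, V, ?_, fun g hg => ⟨fun j => ?_, ?_, ?_⟩⟩
  · have hKp : (0 : ℝ) < (K : ℝ) ^ (k + 1) := by positivity
    have h3 : ((M : ℝ)) ^ k ≤ (K : ℝ) ^ (k + 1) * V.card := by exact_mod_cast hV1
    have h4 : c₁ * (R / q) ≤ M := by
      refine le_trans (le_of_eq ?_) hM3
      rw [hc₁, hD]
      push_cast
      field_simp
    have h5 : (c₁ * (R / q)) ^ k ≤ (M : ℝ) ^ k := pow_le_pow_left₀ (by positivity) h4 k
    calc c₂ * (R / q) ^ k ≤ c₁ ^ k / (K : ℝ) ^ (k + 1) * (R / q) ^ k :=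
          mul_le_mul_of_nonneg_right ((min_le_right _ _).trans (min_le_right _ _)) (by positivity)
      _ = (c₁ * (R / q)) ^ k / (K : ℝ) ^ (k + 1) := by rw [mul_pow]; ring
      _ ≤ V.card := by
        rw [div_le_iff₀ hKp]
        linarith
  · obtain ⟨h3, h5⟩ := (hV2 g hg).2 j
    have h4 : ((M * D : ℕ) : ℝ) ≤ g j := by exact_mod_cast h3
    have h6 : (g j : ℝ) ≤ ((W * M * D : ℕ) : ℝ) := by exact_mod_cast h5
    constructor
    · refine le_trans ?_ h4
      push_cast
      calc c₂ * R ≤ c₀ / (2 * W) * R :=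
            mul_le_mul_of_nonneg_right ((min_le_right _ _).trans (min_le_left _ _)) hRpos'.le
        _ = c₀ * R / (2 * W * D) * D := by field_simp
        _ ≤ M * D := mul_le_mul_of_nonneg_right hM3 hD0'.le
    · refine h6.trans ?_
      push_cast
      refine hM4.trans ?_
      rw [le_div_iff₀ hc₂0]
      have h7 : c₂ * c₀ ≤ 1 := by
        have h9 : c₂ ≤ 1 / c₀ := min_le_left _ _
        rwa [le_div_iff₀ hc₀] at h9
      have h8 : c₀ * R * c₂ = c₂ * c₀ * R := by ring
      rw [h8]
      calc c₂ * c₀ * R ≤ 1 * R := mul_le_mul_of_nonneg_right h7 hRpos'.le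
        _ = R := one_mul R
  · obtain ⟨f, ι, _, _, h3⟩ := (hV2 g hg).1
    exact h3
  · obtain ⟨f, ι, h1, h2, _⟩ := (hV2 g hg).1
    exact ⟨f, ι, h1, h2⟩

/-- bounds for a difference of places -/
theorem pla_diff {D M K : ℕ} {w : Fin K → ℕ} (f : Fin K → Fin M) {i j : Fin K}
    (hij : w i + 2 ≤ w j) :
    (w j - w i - 1) * M * D ≤ pla D M w f j - pla D M w f i ∧
      pla D M w f j - pla D M w f i ≤ (w j - w i + 1) * M * D := by
  obtain ⟨t, ht⟩ := Nat.exists_eq_add_of_le hij
  have e1 : w j - w i - 1 = t + 1 := by omega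
  have e2 : w j - w i + 1 = t + 3 := by omega
  have h1 := (f i).2
  have h2 := (f j).2
  rw [e1, e2]
  unfold pla
  rw [ht]
  have a1 : (t + 1) * M * D + (w i * M + f i) * D ≤ ((w i + 2 + t) * M + f j) * D := by
    have : (t + 1) * M + (w i * M + f i) ≤ (w i + 2 + t) * M + f j := by nlinarith
    calc (t + 1) * M * D + (w i * M + f i) * D = ((t + 1) * M + (w i * M + f i)) * D := by ring
      _ ≤ _ := Nat.mul_le_mul_right _ this
  have a2 : ((w i + 2 + t) * M + f j) * D ≤ (t + 3) * M * D + (w i * M + f i) * D := by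
    have : (w i + 2 + t) * M + f j ≤ (t + 3) * M + (w i * M + f i) := by nlinarith
    calc ((w i + 2 + t) * M + f j) * D ≤ ((t + 3) * M + (w i * M + f i)) * D :=
          Nat.mul_le_mul_right _ this
      _ = _ := by ring
  omega

/-- At least `c (R(X)/q)^k` vectors of `k` consecutive gaps in `[c R(X), R(X)/c]`, each attained often, with `g_j ≥ Y g_i` for `i < j`,
respectively with `g_i ≥ Y g_j` for `i < j`. -/
theorem vectors (k Y : ℕ) : ∃ c : ℝ, 0 < c ∧ ∀ q : ℕ, 1 ≤ q → ∃ X₀ : ℝ, ∀ X : ℝ, X₀ ≤ X →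
    ∀ a : ℕ, a.Coprime q → ∃ V V' : Finset (Fin k → ℕ), c * (RX X / q) ^ k ≤ V.card ∧
      c * (RX X / q) ^ k ≤ V'.card ∧ (∀ g ∈ V, ∀ i j, i < j → Y * g i ≤ g j) ∧
      (∀ g ∈ V', ∀ i j, i < j → Y * g j ≤ g i) ∧
      ∀ g ∈ V ∪ V', (∀ j, c * RX X ≤ g j ∧ (g j : ℝ) ≤ RX X / c) ∧
        X ^ (9 / 10 : ℝ) ≤ (strings k X a q g).card := by
  classical
  obtain ⟨K, hK, h⟩ := vectors_w k
  set A : ℕ := Y + 3 with hA
  have hA3 : 3 ≤ A := by omega
  have hA0 : 0 < A := by omega
  -- the weights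
  have hu : ∀ e e' : ℕ, e < e' → A * A ^ e ≤ A ^ e' := by
    intro e e' hee
    calc A * A ^ e = A ^ (e + 1) := by ring
      _ ≤ A ^ e' := Nat.pow_le_pow_right hA0 hee
  have hu1 : ∀ e : ℕ, 1 ≤ A ^ e := fun e => Nat.one_le_pow _ _ hA0
  have hu2 : ∀ e e' : ℕ, e < e' → A ^ e + 2 ≤ A ^ e' := by
    intro e e' hee
    have h1 := hu e e' hee
    have h2 := hu1 e
    nlinarith
  set w : Fin K → ℕ := fun i => A ^ (i : ℕ) with hw
  set w' : Fin K → ℕ := fun i => A ^ K - A ^ (K - 1 - (i : ℕ)) with hw'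
  have hww : ∀ i j, i < j → w i + 2 ≤ w j := by
    intro i j hij
    exact hu2 _ _ hij
  have hww' : ∀ i j, i < j → w' i + 2 ≤ w' j := by
    intro i j hij
    have h1 : A ^ (K - 1 - (j : ℕ)) + 2 ≤ A ^ (K - 1 - (i : ℕ)) := by
      apply hu2
      have := j.2
      have h3 : (i : ℕ) < j := hij
      omega
    have h2 : A ^ (K - 1 - (i : ℕ)) ≤ A ^ K := Nat.pow_le_pow_right hA0 (by omega)
    simp only [hw']
    omega
  have hW : ∀ i, w i + 1 ≤ A ^ K := by
    intro i
    have := hu2 i K i.2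
    simp only [hw]
    omega
  have hW' : ∀ i, w' i + 1 ≤ A ^ K := by
    intro i
    have h1 := hu1 (K - 1 - (i : ℕ))
    have h2 : A ^ (K - 1 - (i : ℕ)) ≤ A ^ K := Nat.pow_le_pow_right hA0 (by omega)
    simp only [hw']
    omega
  obtain ⟨c, hc, h1⟩ := h w (A ^ K) (hu1 K) hww hW
  obtain ⟨c', hc', h1'⟩ := h w' (A ^ K) (hu1 K) hww' hW'
  set c₃ := min c c' with hc₃
  have hc₃0 : 0 < c₃ := lt_min hc hc'
  refine ⟨c₃, hc₃0, fun q hq => ?_⟩
  have hq0 : (0 : ℝ) < q := by exact_mod_cast hq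
  obtain ⟨X1, hX1⟩ := h1 q hq
  obtain ⟨X1', hX1'⟩ := h1' q hq
  obtain ⟨X2, hX2⟩ := Filter.eventually_atTop.1 (RX_ge_const 0)
  refine ⟨max (max X1 X1') X2, fun X hX a ha => ?_⟩
  have hR0 : 0 ≤ RX X := hX2 X ((le_max_right _ _).trans hX)
  obtain ⟨M, D, hM, hD, V, hV1, hV2⟩ :=
    hX1 X ((le_max_left _ _).trans ((le_max_left _ _).trans hX)) a ha
  obtain ⟨M', D', hM', hD', V', hV1', hV2'⟩ :=
    hX1' X ((le_max_right _ _).trans ((le_max_left _ _).trans hX)) a ha
  have hpw : 0 ≤ (RX X / q) ^ k := by positivity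
  have hdiv : ∀ d : ℝ, 0 < d → c₃ ≤ d → RX X / d ≤ RX X / c₃ := by
    intro d hd hle
    exact div_le_div_of_nonneg_left hR0 hc₃0 hle
  refine ⟨V, V', (mul_le_mul_of_nonneg_right (min_le_left _ _) hpw).trans hV1,
    (mul_le_mul_of_nonneg_right (min_le_right _ _) hpw).trans hV1', ?_, ?_, ?_⟩
  · intro g hg i j hij
    obtain ⟨f, ι, hι, rfl⟩ := (hV2 g hg).2.2
    have hi := hι (Fin.castSucc_lt_succ (i := i))
    have hj := hι (Fin.castSucc_lt_succ (i := j))
    have d1 := (pla_diff (D := D) f (hww _ _ hi)).2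
    have d2 := (pla_diff (D := D) f (hww _ _ hj)).1
    have e1 : w (ι i.succ) - w (ι i.castSucc) + 1 ≤ w (ι i.succ) := by
      have := hu1 ((ι i.castSucc : Fin K) : ℕ)
      have h5 := hww _ _ hi
      simp only [hw] at h5 ⊢
      omega
    have e2 : w (ι i.succ) ≤ w (ι j.castSucc) := by
      apply Nat.pow_le_pow_right hA0
      have : i.succ ≤ j.castSucc := by
        rw [Fin.le_def, Fin.val_succ, Fin.val_castSucc]
        exact hij
      exact (hι.monotone this)
    have e3 : Y * w (ι j.castSucc) ≤ w (ι j.succ) - w (ι j.castSucc) - 1 := by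
      have h5 := hu _ _ (show ((ι j.castSucc : Fin K) : ℕ) < (ι j.succ : Fin K) from hj)
      have h6 := hu1 ((ι j.castSucc : Fin K) : ℕ)
      simp only [hw]
      have h7 : A * A ^ ((ι j.castSucc : Fin K) : ℕ) =
          Y * A ^ ((ι j.castSucc : Fin K) : ℕ) + 3 * A ^ ((ι j.castSucc : Fin K) : ℕ) := by
        rw [hA]; ring
      omega
    calc Y * (pla D M w f (ι i.succ) - pla D M w f (ι i.castSucc))
        ≤ Y * ((w (ι i.succ) - w (ι i.castSucc) + 1) * M * D) := Nat.mul_le_mul_left _ d1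
      _ ≤ Y * (w (ι j.castSucc) * M * D) := by
          apply Nat.mul_le_mul_left
          apply Nat.mul_le_mul_right
          apply Nat.mul_le_mul_right
          exact e1.trans e2
      _ = (Y * w (ι j.castSucc)) * M * D := by ring
      _ ≤ (w (ι j.succ) - w (ι j.castSucc) - 1) * M * D := by
          apply Nat.mul_le_mul_right
          apply Nat.mul_le_mul_right
          exact e3
      _ ≤ _ := d2
  · intro g hg i j hij
    obtain ⟨f, ι, hι, rfl⟩ := (hV2' g hg).2.2
    have hi := hι (Fin.castSucc_lt_succ (i := i))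
    have hj := hι (Fin.castSucc_lt_succ (i := j))
    have d1 := (pla_diff (D := D') f (hww' _ _ hi)).1
    have d2 := (pla_diff (D := D') f (hww' _ _ hj)).2
    set u : Fin K → ℕ := fun i => A ^ (K - 1 - (i : ℕ)) with hu'
    have huK : ∀ x : Fin K, u x ≤ A ^ K := fun x => Nat.pow_le_pow_right hA0 (by omega)
    have hu1' : ∀ x : Fin K, 1 ≤ u x := fun x => hu1 _
    have hue : ∀ x y : Fin K, x < y → w' y - w' x = u x - u y := by
      intro x y hxy
      have h5 := huK x
      have h6 := huK y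
      simp only [hw']
      change A ^ K - u y - (A ^ K - u x) = u x - u y
      omega
    have huu : ∀ x y : Fin K, x < y → A * u y ≤ u x := by
      intro x y hxy
      apply hu
      have := y.2
      have h3 : (x : ℕ) < y := hxy
      omega
    rw [hue _ _ hi] at d1
    rw [hue _ _ hj] at d2
    have e2 : u (ι j.castSucc) ≤ u (ι i.succ) := by
      apply Nat.pow_le_pow_right hA0
      have h4 : i.succ ≤ j.castSucc := by
        rw [Fin.le_def, Fin.val_succ, Fin.val_castSucc]
        exact hij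
      have h5 : ((ι i.succ : Fin K) : ℕ) ≤ (ι j.castSucc : Fin K) := hι.monotone h4
      omega
    have e1 : u (ι j.castSucc) - u (ι j.succ) + 1 ≤ u (ι j.castSucc) := by
      have h5 := hu1' (ι j.succ)
      have h6 := huu _ _ hj
      have h7 : u (ι j.succ) ≤ A * u (ι j.succ) := Nat.le_mul_of_pos_left _ hA0
      omega
    have e3 : Y * u (ι i.succ) ≤ u (ι i.castSucc) - u (ι i.succ) - 1 := by
      have h5 := huu _ _ hi
      have h6 := hu1' (ι i.succ)
      have h7 : A * u (ι i.succ) = Y * u (ι i.succ) + 3 * u (ι i.succ) := by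
        rw [hA]; ring
      omega
    calc Y * (pla D' M' w' f (ι j.succ) - pla D' M' w' f (ι j.castSucc))
        ≤ Y * ((u (ι j.castSucc) - u (ι j.succ) + 1) * M' * D') := Nat.mul_le_mul_left _ d2
      _ ≤ Y * (u (ι i.succ) * M' * D') := by
          apply Nat.mul_le_mul_left
          apply Nat.mul_le_mul_right
          apply Nat.mul_le_mul_right
          exact e1.trans e2
      _ = (Y * u (ι i.succ)) * M' * D' := by ring
      _ ≤ (u (ι i.castSucc) - u (ι i.succ) - 1) * M' * D' := by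
          apply Nat.mul_le_mul_right
          apply Nat.mul_le_mul_right
          exact e3
      _ ≤ _ := d1
  · intro g hg
    rcases Finset.mem_union.1 hg with hg | hg
    · obtain ⟨h3, h4, _⟩ := hV2 g hg
      refine ⟨fun j => ⟨?_, ?_⟩, h4⟩
      · exact (mul_le_mul_of_nonneg_right (min_le_left _ _) hR0).trans (h3 j).1
      · exact (h3 j).2.trans (hdiv c hc (min_le_left _ _))
    · obtain ⟨h3, h4, _⟩ := hV2' g hg
      refine ⟨fun j => ⟨?_, ?_⟩, h4⟩
      · exact (mul_le_mul_of_nonneg_right (min_le_right _ _) hR0).trans (h3 j).1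
      · exact (h3 j).2.trans (hdiv c' hc' (min_le_right _ _))

end Pool.Agent.LibRC95
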